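import Pool.Agent.Q87.CH.Final
import Pool.Agent.Q87.CH.Shadow
import Pool.Agent.Q87.CH.Bridge
import Pool.Agent.Q87.CH.RepBdd
import Pool.Agent.Q87.CH.RepDeriv
import Pool.Agent.Q87.CH.Phi
import Pool.Agent.Q87.CH.LiftC
import Pool.Agent.Q87.CH.Proj
import Pool.Agent.Q87.CH.Green
import Pool.Agent.Q87.CH.Bound
import Pool.Agent.Q87.CH.Exist
import Pool.Agent.Q87.CH.Uniq
import Pool.Agent.Q87.CH.Chain
import Pool.Agent.Q87.CH.Chs

/-!
# Lower semicontinuity of the fibre map of controlled hyperbolic sets

Full positive answer to Q1 of MP_dedb2f_an (hence also to Q2).  `M` is a smooth manifold modelled on a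
finite-dimensional space `E` with a continuous Riemannian metric, `U` a compact connected metric space, `f : U × M → M` a family of
`C^1` diffeomorphisms with `f`, `f⁻¹` and `Df` jointly continuous.  For every hyperbolic set `Q`
with isolated invariant lift the fibre map `u ↦ Q(u)` is lower semicontinuous on `U^ℤ`.

Idea: two controls which are uniformly close on all of `ℤ` have fibres which shadow each other
(hyperbolicity, isolation).  Two controls which are close in the product topology are joined by a
chain of a fixed number of uniformly small changes (`U` is compact and connected), and along an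
ultrafilter converging to `u` every member of the chain converges to `u` as well; by
expansiveness the shadowing point cannot move in the limit.
-/

namespace Pool.Agent.Results.MP_dedb2f_an.FiberMapLSC

open scoped Manifold ContDiff Topology
open Bundle Pool.Agent.Q87.CH

theorem lsc_metric (E : Type) [NormedAddCommGroup E] [NormedSpace ℝ E] [FiniteDimensional ℝ E]
    (U M : Type) [MetricSpace U] [CompactSpace U] [ConnectedSpace U]
    [MetricSpace M] [ChartedSpace E M] [IsManifold 𝓘(ℝ, E) ∞ M]
    [RiemannianBundle (fun x : M => TangentSpace 𝓘(ℝ, E) x)]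
    [IsContinuousRiemannianBundle E (fun x : M => TangentSpace 𝓘(ℝ, E) x)]
    (f : U → Diffeomorph 𝓘(ℝ, E) 𝓘(ℝ, E) M M 1) (hf : IsSystem f)
    (Q : Set M) (hQ : IsHyperbolic f Q) (hiso : IsolatedLift f Q) : FiberLSC f Q := by
  have hbr : S_bridge := bridge (repbdd repcont) phisucc phiadd phicont
  have hun : S_unif := unif repderiv repcont
  have hli : S_lift := lift phiadd phicont
  have hex := expans chs proj (uniq bound) hun close2 phisucc hbr E U M f hf Q hQ
  have hsh := shadow chs proj (exist green bound) hun close1 phisucc phiuniq (isol phiadd hli)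
    hbr E U M f hf Q hQ hiso
  exact final chain phicont hli E U M f hf Q hQ.compact hex hsh

/-- **Main theorem** (full answer to Q1, affirmative). -/
theorem result (E : Type) [NormedAddCommGroup E] [NormedSpace ℝ E] [FiniteDimensional ℝ E]
    (U M : Type) [MetricSpace U] [CompactSpace U] [ConnectedSpace U]
    [TopologicalSpace M] [T2Space M] [SecondCountableTopology M]
    [ChartedSpace E M] [IsManifold 𝓘(ℝ, E) ∞ M]
    [RiemannianBundle (fun x : M => TangentSpace 𝓘(ℝ, E) x)]
    [IsContinuousRiemannianBundle E (fun x : M => TangentSpace 𝓘(ℝ, E) x)]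
    (f : U → Diffeomorph 𝓘(ℝ, E) 𝓘(ℝ, E) M M 1) (hf : IsSystem f)
    (Q : Set M) (hQ : IsHyperbolic f Q) (hiso : IsolatedLift f Q) : FiberLSC f Q := by
  have : LocallyCompactSpace M := Manifold.locallyCompact_of_finiteDimensional 𝓘(ℝ, E)
  have : TopologicalSpace.MetrizableSpace M := Manifold.metrizableSpace 𝓘(ℝ, E) M
  let _ : MetricSpace M := TopologicalSpace.metrizableSpaceMetric M
  exact lsc_metric E U M f hf Q hQ hiso

end Pool.Agent.Results.MP_dedb2f_an.FiberMapLSC
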